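import Pool.Agent.H992.PL.Defs

/-! PL2 for helper992: the recursion step for couplings of finite range. -/

set_option autoImplicit false

noncomputable section

namespace Pool.Agent.H747.PL

open MeasureTheory MvPolynomial Pool.Agent.H5R2.ON Pool.Agent.H717R2.ON3 Pool.Agent.H983R2.ONJ
open Pool.Agent.H983R2.ONJ.Aux602 Pool.Agent.H983R2.ONJ.Aux993 Pool.Agent.H992.PL

/-- `t² ≤ (1 + t)^q` for `q ≥ 2` -/
theorem sq_le_rpow {t q : ℝ} (ht : 0 ≤ t) (hq : 2 ≤ q) : t ^ 2 ≤ (1 + t) ^ q := by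
  calc t ^ 2 ≤ (1 + t) ^ 2 := pow_le_pow_left₀ ht (by linarith) 2
    _ = (1 + t) ^ (2 : ℝ) := (Real.rpow_two _).symm
    _ ≤ (1 + t) ^ q := Real.rpow_le_rpow_of_exponent_le (by linarith) hq

theorem mom_mono {L : ℕ} [NeZero L] {A q : ℝ} {c c' : Tor L × Tor L → ℝ} (h : Mom A q c)
    (h0 : ∀ e, 0 ≤ c' e) (h1 : ∀ e, c' e ≤ c e) : Mom A q c' := by
  refine ⟨h0, fun x => le_trans (Finset.sum_le_sum fun y _ => ?_) (h.mom x)⟩
  refine mul_le_mul_of_nonneg_right (add_le_add (h1 _) (h1 _)) ?_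
  have := tn_nonneg (y - x)
  positivity

/-- the multigraph is nice -/
theorem nice {L : ℕ} [NeZero L] {A q : ℝ} (hq : 2 ≤ q) (m : Tor L × Tor L → ℕ) (n : ℕ)
    (ρ : ℝ) (hc : Mom A q (fun e => (m e : ℝ) / n)) (hm : ∀ e, m e ≠ 0 → tnorm (e.2 - e.1) ≤ ρ) :
    Nice (gJ m) (1 / (n : ℝ)) ρ A := by
  classical
  have hpos : ∀ e : Tor L × Tor L, 0 ≤ (m e : ℝ) / n := fun e => by positivity
  have hw : ∀ z : Tor L, 0 ≤ (1 + tnorm z) ^ q := fun z => by
    have := tn_nonneg z
    positivity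
  refine ⟨by positivity, ?_, ?_, ?_⟩
  · rintro ⟨e, i⟩
    refine hm e ?_
    intro h0
    rw [h0] at i
    exact i.elim0
  · intro x
    have e1 : ∑ e ∈ Finset.univ.filter (fun e => (gJ m).s e = x),
        tnorm ((gJ m).t e - (gJ m).s e) ^ 2 =
        ∑ e : Tor L × Tor L, (m e : ℝ) * (if e.1 = x then tnorm (e.2 - e.1) ^ 2 else 0) := by
      rw [Finset.sum_filter]
      exact sum_sig m (fun e => if e.1 = x then tnorm (e.2 - e.1) ^ 2 else 0)
    have e2 : 1 / (n : ℝ) * ∑ e ∈ Finset.univ.filter (fun e => (gJ m).s e = x),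
        tnorm ((gJ m).t e - (gJ m).s e) ^ 2 =
        ∑ y : Tor L, 1 / (n : ℝ) * ((m (x, y) : ℝ) * tnorm (y - x) ^ 2) := by
      rw [e1, Fintype.sum_prod_type, Finset.sum_eq_single x]
      · rw [Finset.mul_sum]
        refine Finset.sum_congr rfl fun y _ => ?_
        simp
      · intro b _ hb
        simp [hb]
      · intro h
        exact absurd (Finset.mem_univ x) h
    rw [e2]
    refine le_trans (Finset.sum_le_sum fun y _ => ?_) (hc.mom x)
    have e3 : 1 / (n : ℝ) * ((m (x, y) : ℝ) * tnorm (y - x) ^ 2) =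
        (m (x, y) : ℝ) / n * tnorm (y - x) ^ 2 := by ring
    rw [e3]
    refine mul_le_mul ?_ (sq_le_rpow (tn_nonneg _) hq) (by positivity)
      (add_nonneg (hpos _) (hpos _))
    exact le_add_of_nonneg_right (hpos _)
  · intro x
    have e1 : ∑ e ∈ Finset.univ.filter (fun e => (gJ m).t e = x),
        tnorm ((gJ m).t e - (gJ m).s e) ^ 2 =
        ∑ e : Tor L × Tor L, (m e : ℝ) * (if e.2 = x then tnorm (e.2 - e.1) ^ 2 else 0) := by
      rw [Finset.sum_filter]
      exact sum_sig m (fun e => if e.2 = x then tnorm (e.2 - e.1) ^ 2 else 0)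
    have e2 : 1 / (n : ℝ) * ∑ e ∈ Finset.univ.filter (fun e => (gJ m).t e = x),
        tnorm ((gJ m).t e - (gJ m).s e) ^ 2 =
        ∑ y : Tor L, 1 / (n : ℝ) * ((m (y, x) : ℝ) * tnorm (x - y) ^ 2) := by
      rw [e1, Fintype.sum_prod_type_right, Finset.sum_eq_single x]
      · rw [Finset.mul_sum]
        refine Finset.sum_congr rfl fun y _ => ?_
        simp
      · intro b _ hb
        simp [hb]
      · intro h
        exact absurd (Finset.mem_univ x) h
    rw [e2]
    refine le_trans (Finset.sum_le_sum fun y _ => ?_) (hc.mom x)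
    have e3 : 1 / (n : ℝ) * ((m (y, x) : ℝ) * tnorm (x - y) ^ 2) =
        (m (y, x) : ℝ) / n * tnorm (y - x) ^ 2 := by
      rw [tnorm_sub_comm x y]
      ring
    rw [e3]
    refine mul_le_mul ?_ (sq_le_rpow (tn_nonneg _) hq) (by positivity)
      (add_nonneg (hpos _) (hpos _))
    exact le_add_of_nonneg_left (hpos _)

theorem fin (h : S_Main) : S_Fin := by
  intro N hN A q ε θ hA hq hε hθ hθ1
  have hN0 : N ≠ 0 := by omega
  obtain ⟨R₀, hR₀, hmain⟩ := h A (ε ^ 2) θ hA (by positivity) hθ hθ1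
  refine ⟨max R₀ 1, le_max_right _ _, ?_⟩
  intro R hR m hm hMB L _ hL c hc hrange p η i
  have hR0 : R₀ ≤ R := (le_max_left _ _).trans hR
  have hR1 : 1 ≤ R := (le_max_right _ _).trans hR
  have hRpos : 0 < R := by linarith
  have hρ : 1 ≤ R ^ θ := Real.one_le_rpow hR1 hθ.le
  have hFc : Continuous (fun S : Conf N L => cc i (S p)) :=
    (st_cc_cont _).comp (continuous_apply _)
  have key : ∀ n : ℕ, |gH (pS c) (ball p R) η (fun S => cc i (S p))| ≤
      ε * m + (Real.exp (2 * ((L : ℝ) ^ 4 / ((n : ℝ) + 1))) - 1) := by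
    intro n'
    obtain ⟨n, hn⟩ : ∃ n : ℕ, n = n' + 1 := ⟨_, rfl⟩
    have hnn : (n : ℝ) = (n' : ℝ) + 1 := by rw [hn]; push_cast; rfl
    rw [← hnn]
    have hn' : (0 : ℝ) < n := by rw [hnn]; positivity
    let k : Tor L × Tor L → ℕ := fun e => ⌊(n : ℝ) * c e⌋₊
    have hk : ∀ e, (k e : ℝ) / n ≤ c e := by
      intro e
      rw [div_le_iff₀ hn', mul_comm (c e)]
      exact Nat.floor_le (mul_nonneg hn'.le (hc.nonneg e))
    have hk2 : ∀ e, c e - (k e : ℝ) / n ≤ 1 / n := by
      intro e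
      have e2 : (n : ℝ) * c e < (k e : ℝ) + 1 := Nat.lt_floor_add_one _
      rw [sub_le_iff_le_add, ← add_div, le_div_iff₀ hn', mul_comm]
      linarith
    have hkc : Mom A q (fun e => (k e : ℝ) / n) := mom_mono hc (fun e => by positivity) hk
    have hkr : ∀ e, k e ≠ 0 → tnorm (e.2 - e.1) ≤ R ^ θ := by
      intro e he
      by_contra hcon
      apply he
      have h0 := hrange e (not_le.1 hcon)
      simp only [k]
      rw [h0, mul_zero, Nat.floor_zero]
    have hNice := nice hq k n (R ^ θ) hkc hkr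
    have hHeq : (fun S : Conf N L => (1 / (n : ℝ)) * enG (gJ k) S) =
        pS (fun e => (k e : ℝ) / n) := by
      funext S
      exact enG_gJ k n S
    have h1 : |gH (fun S : Conf N L => (1 / (n : ℝ)) * enG (gJ k) S) (ball p R) η
        (fun S => cc i (S p))| ≤ ε * m := by
      refine core hN hε (gJ k) (1 / (n : ℝ)) R m hRpos hm p ?_ ?_ η i
      · intro W
        exact hmain R hR0 L hL (gJ k) (1 / (n : ℝ)) (R ^ θ) hNice hρ le_rfl p W
      · intro η' j
        rw [hHeq]
        exact hMB L (by linarith) _ hkc p η' j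
    have hcmp : ∀ S : Conf N L, |pS c (splice (ball p R) S η) -
        (1 / (n : ℝ)) * enG (gJ k) (splice (ball p R) S η) - 0| ≤ (L : ℝ) ^ 4 / n := by
      intro S
      rw [enG_gJ, sub_zero]
      unfold pS
      rw [← Finset.sum_sub_distrib]
      refine (Finset.abs_sum_le_sum_abs _ _).trans ?_
      have h2 : ∀ e ∈ (Finset.univ : Finset (Tor L × Tor L)),
          |c e * inner ℝ (splice (ball p R) S η e.1 : EuclideanSpace ℝ (Fin N))
            (splice (ball p R) S η e.2) - (k e : ℝ) / n *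
            inner ℝ (splice (ball p R) S η e.1 : EuclideanSpace ℝ (Fin N))
              (splice (ball p R) S η e.2)| ≤ 1 / n := by
        intro e _
        rw [← sub_mul, abs_mul, abs_of_nonneg (sub_nonneg.2 (hk e))]
        calc _ ≤ (1 / (n : ℝ)) * 1 := mul_le_mul (hk2 e) (inner_le_one _ _) (abs_nonneg _)
              (by positivity)
          _ = 1 / n := mul_one _
      refine (Finset.sum_le_card_nsmul _ _ _ h2).trans (le_of_eq ?_)
      rw [Finset.card_univ, Fintype.card_prod, nsmul_eq_mul]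
      push_cast
      rw [card_tor]
      ring
    have h2 := gH_compare hN0 (continuous_pS c) (H' := fun S => (1 / (n : ℝ)) * enG (gJ k) S)
      (continuous_const.mul (continuous_enG (gJ k))) (ball p R) η 0 ((L : ℝ) ^ 4 / n) hcmp
      hFc.measurable (fun S => st_cc_abs_le _ _)
    have h3 : gH (pS c) (ball p R) η (fun S => cc i (S p)) =
        gH (fun S : Conf N L => (1 / (n : ℝ)) * enG (gJ k) S) (ball p R) η
          (fun S => cc i (S p)) +
        (gH (pS c) (ball p R) η (fun S => cc i (S p)) -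
          gH (fun S : Conf N L => (1 / (n : ℝ)) * enG (gJ k) S) (ball p R) η
            (fun S => cc i (S p))) := by ring
    rw [h3]
    exact (abs_add_le _ _).trans (add_le_add h1 h2)
  have hlim : Filter.Tendsto (fun n : ℕ => ε * m +
      (Real.exp (2 * ((L : ℝ) ^ 4 / ((n : ℝ) + 1))) - 1)) Filter.atTop (nhds (ε * m)) := by
    have h1 : Filter.Tendsto (fun n : ℕ => (L : ℝ) ^ 4 / ((n : ℝ) + 1)) Filter.atTop (nhds 0) := by
      have h2 := (tendsto_one_div_add_atTop_nhds_zero_nat (𝕜 := ℝ)).const_mul ((L : ℝ) ^ 4)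
      rw [mul_zero] at h2
      refine h2.congr fun n => ?_
      ring
    have h3 := (Real.continuous_exp.tendsto _).comp (h1.const_mul 2)
    rw [mul_zero, Real.exp_zero] at h3
    have h4 := (h3.sub_const 1).const_add (ε * m)
    rw [sub_self, add_zero] at h4
    exact h4
  exact ge_of_tendsto' hlim key

end Pool.Agent.H747.PL
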